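import Pool.Agent.Helper766.Mean.Main

set_option autoImplicit false

namespace Pool.Agent.Results.MP_bc229f_an.KoebeNotExtremal

open Pool.Agent.Helper766.Mean

/-- Sanity check: every constant that works for all `f` in `S` and all radii bounds `bestConst`. -/
theorem bestConst_le_of_forall (lam C : ℝ)
    (h : ∀ f : ℂ → ℂ, ClassS f → ∀ r ∈ Set.Ioo (0 : ℝ) 1,
      intMean lam r f / intMean lam r koebe ≤ C) : bestConst lam ≤ ENNReal.ofReal C := by
  unfold bestConst
  refine iSup_le fun f => iSup_le fun hf => iSup_le fun r => iSup_le fun hr => ?_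
  exact ENNReal.ofReal_le_ofReal (h f hf r hr)

/-- Sanity check: the Koebe function belongs to `S`. -/
theorem koebe_mem : ClassS koebe := by
  refine ⟨koebe_diff, koebe_injOn, ?_, ?_⟩
  · simp [koebe]
  · rw [deriv_koebe (by simp)]; simp

/-- For every exponent `lam` with `2/5 < lam < 2/3` the Koebe function does not maximise the
integral means of the derivative over `S` for all radii simultaneously: some `f` in `S` has a
strictly larger mean at some radius, so the best constant `C_lam` exceeds `1`. -/
theorem result (lam : ℝ) (h1 : 2 / 5 < lam) (h2 : lam < 2 / 3) :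
    (∃ f : ℂ → ℂ, ClassS f ∧ ∃ r : ℝ, r ∈ Set.Ioo (0 : ℝ) 1 ∧
      intMean lam r koebe < intMean lam r f) ∧ 1 < bestConst lam :=
  main h1 h2

end Pool.Agent.Results.MP_bc229f_an.KoebeNotExtremal
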